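import Mathlib
import Pool.Agent.H55.SCDefs
import Pool.Agent.H55.CSDefs
import Pool.Agent.H55.Sig.TKDefs
import Pool.Agent.H55.Sig.Sig4

set_option autoImplicit false

/-!
# It is consistent that a non-selective q-point is Tukey reducible to a Fubini iterate of p-points

The negated form of Q1 is proved outright: there is a countable wellfounded model of `ZFC` containing a finite Fubini
iterate of p-points `U` and a q-point `V` which is Tukey reducible to `U` and which is not selective.
-/

namespace Pool.Agent.Results.MP_21276c_lc.ConsistentFailure

open Pool.Agent.H55.SC Pool.Agent.H55.CS Pool.Agent.H55.TK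

/-- There is a countable model `(M, E)` of `ZFC`, with a wellfounded membership relation, in which there are a finite
Fubini iterate `U` of p-points and a q-point `V` such that `V` is Tukey reducible to `U` and `V` is not selective. Here
`w` is the set of natural numbers of the model. -/
theorem result : ∃ (M : Type 1) (E : M → M → Prop), Countable M ∧ WellFounded E ∧ ZFC E ∧
    ∃ w, IsOmega E w ∧ ∃ (k : ℕ) (U V : M), IsIterate E w k U ∧ IsQPoint E w V ∧ TukeyLE E V U ∧
      ¬ IsSelective E w V :=
  Pool.Agent.H55.Sig.main_result

end Pool.Agent.Results.MP_21276c_lc.ConsistentFailure
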