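import Mathlib
import Pool.Agent.H55.TukeyDefs

set_option autoImplicit false

namespace Pool.Agent.Results.MP_21276c_lc.SumOfSelectives

open Pool.Agent.H55.TukeyDefs

/-- In ZFC: if `W` is a p-point and `Y 0, Y 1, ...` are pairwise non-isomorphic selective ultrafilters, then the
Fubini limit of the `Y n` along `W` is a Fubini iterate of p-points of depth 2 that is a q-point and not selective. -/
theorem result (W : Ultrafilter ℕ) (Y : ℕ → Ultrafilter ℕ) (U : Ultrafilter ℕ) (hW : IsPPoint W)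
    (hY : ∀ n, IsSelective (Y n)) (hiso : ∀ n m, n ≠ m → ∀ e : ℕ ≃ ℕ, (Y n).map e ≠ Y m)
    (hU : IsFubiniLimit W Y U) :
    IsIterate 2 U ∧ IsQPoint U ∧ ¬ IsSelective U := by
  obtain ⟨h1, h2⟩ := main hW.1 hY hiso hU
  exact ⟨IsIterate.limit 1 W Y U hW (fun n => IsIterate.ppoint _ (hY n).isPPoint) hU, h1, h2⟩

end Pool.Agent.Results.MP_21276c_lc.SumOfSelectives
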